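import Mathlib
import Pool.Agent.Lib.MP_a37012_nt.PtD
import Pool.Agent.Lib.MP_a37012_nt.ParOne
import Pool.Agent.Lib.MP_a37012_nt.Count3
import Pool.Agent.Lib.MP_a37012_nt.Final3

set_option autoImplicit false

/-!
Lower bound for the number of rational points near nondegenerate submanifolds `f(U)`, in the form
of the question: `U` an open ball, the distance taken to the whole image `f(U)`.
-/

namespace Pool.Agent.Results.MP_a37012_nt.Immersions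

theorem onBalls :
  ∀ (d n l : ℕ), 1 < d → d < n → 1 ≤ l →
  ∀ (U : Set (EuclideanSpace ℝ (Fin d))) (f : EuclideanSpace ℝ (Fin d) → EuclideanSpace ℝ (Fin n)),
    IsOpen U → ContDiffOn ℝ (l : ℕ) f U →
    (∀ x ∈ U, Function.Injective (fderiv ℝ f x)) →
    (∀ᵐ x ∂(MeasureTheory.volume.restrict U),
      Submodule.span ℝ {y : EuclideanSpace ℝ (Fin n) | ∃ k : ℕ, 1 ≤ k ∧ k ≤ l ∧
        ∃ w : Fin k → EuclideanSpace ℝ (Fin d), y = iteratedFDeriv ℝ k f x w} = ⊤) →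
    ∀ (x₀ : EuclideanSpace ℝ (Fin d)) (r : ℝ), 0 < r → Metric.closedBall x₀ r ⊆ U →
    ∃ C₁ C₂ : ℝ, 0 < C₁ ∧ 0 < C₂ ∧ ∃ Q₀ : ℝ, ∀ Q ψ : ℝ, Q₀ ≤ Q →
      C₂ * Q ^ (-(1:ℝ) / ((n:ℝ) - (d:ℝ))) < ψ → ψ < 1 →
      C₁ * ψ ^ (n - d) * Q ^ (d + 1) ≤
        (({pq : (Fin n → ℤ) × ℕ | 1 ≤ pq.2 ∧ (pq.2 : ℝ) ≤ Q ∧
          Metric.infDist ((EuclideanSpace.equiv (Fin n) ℝ).symm (fun i => (pq.1 i : ℝ) / (pq.2 : ℝ)))
            (f '' Metric.ball x₀ r) ≤ ψ / (pq.2 : ℝ)}.ncard : ℕ) : ℝ) := by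
  refine Pool.Agent.Lib.MP_a37012_nt.final_of_graph ?_
  intro d m l hd hm hl V hV F hF y₀ hy₀ hnd
  obtain ⟨j₀, k₀, hcl, hgood⟩ : ∃ (j₀ : ℕ) (k₀ : Fin d → ℤ),
      closure (Pool.Agent.Lib.MP_a37012_nt.cube j₀ k₀) ⊆ V ∧
        Pool.Agent.Lib.MP_a37012_nt.ParGood F j₀ k₀ := by
    rcases Nat.lt_or_ge 1 m with h | h
    · exact Pool.Agent.Lib.MP_a37012_nt.parGood_two d m l hd h hl V hV F hF y₀ hy₀ hnd
    · obtain rfl : m = 1 := by omega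
      exact Pool.Agent.Lib.MP_a37012_nt.parGood_one d l hd hl V hV F hF y₀ hy₀ hnd
  exact Pool.Agent.Lib.MP_a37012_nt.count_of_good d m hd hm V hV F
    (fun i => (hF i).of_le (by exact_mod_cast hl)) j₀ k₀ hcl hgood

/-- The answer to the question is yes. For every open ball `U` of `ℝ ^ d` and every immersion
`f : U → ℝ ^ n` of class `C ^ l`, `l ≥ 1`, whose partial derivatives of orders `1, ..., l` span
`ℝ ^ n` at almost every point of `U`: there are `C₁, C₂ > 0` such that for all large `Q` and all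
`ψ` with `C₂ Q ^ (-1 / (n - d)) < ψ < 1` there are at least `C₁ ψ ^ (n - d) Q ^ (d + 1)` pairs
`(p, q)` with `1 ≤ q ≤ Q` and `dist (p / q, f(U)) ≤ ψ / q`. -/
theorem result (d n l : ℕ) (hd : 1 < d) (hn : d < n) (hl : 1 ≤ l)
    (x₀ : EuclideanSpace ℝ (Fin d)) (r : ℝ) (hr : 0 < r)
    (f : EuclideanSpace ℝ (Fin d) → EuclideanSpace ℝ (Fin n))
    (hf : ContDiffOn ℝ (l : ℕ) f (Metric.ball x₀ r))
    (himm : ∀ x ∈ Metric.ball x₀ r, Function.Injective (fderiv ℝ f x))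
    (hnd : ∀ᵐ x ∂(MeasureTheory.volume.restrict (Metric.ball x₀ r)),
      Submodule.span ℝ {y : EuclideanSpace ℝ (Fin n) | ∃ k : ℕ, 1 ≤ k ∧ k ≤ l ∧
        ∃ w : Fin k → EuclideanSpace ℝ (Fin d), y = iteratedFDeriv ℝ k f x w} = ⊤) :
    ∃ C₁ C₂ : ℝ, 0 < C₁ ∧ 0 < C₂ ∧ ∃ Q₀ : ℝ, ∀ Q ψ : ℝ, Q₀ ≤ Q →
      C₂ * Q ^ (-(1:ℝ) / ((n:ℝ) - (d:ℝ))) < ψ → ψ < 1 →
      ∃ S : Finset ((Fin n → ℤ) × ℕ),
        (∀ pq ∈ S, 1 ≤ pq.2 ∧ (pq.2 : ℝ) ≤ Q ∧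
          Metric.infDist ((EuclideanSpace.equiv (Fin n) ℝ).symm (fun i => (pq.1 i : ℝ) / (pq.2 : ℝ)))
            (f '' Metric.ball x₀ r) ≤ ψ / (pq.2 : ℝ)) ∧
        C₁ * ψ ^ (n - d) * Q ^ (d + 1) ≤ (S.card : ℝ) := by
  obtain ⟨C₁, C₂, h1, h2, Q₀, h⟩ := onBalls d n l hd hn hl (Metric.ball x₀ r) f
    Metric.isOpen_ball hf himm hnd x₀ (r / 2) (half_pos hr)
    (Metric.closedBall_subset_ball (half_lt_self hr))
  refine ⟨C₁, C₂, h1, h2, max Q₀ 1, fun Q ψ hQ hψ hψ1 => ?_⟩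
  have hQ1 : 1 ≤ Q := (le_max_right _ _).trans hQ
  have hQ0 : 0 < Q := lt_of_lt_of_le one_pos hQ1
  have hψ0 : 0 < ψ := lt_of_le_of_lt (mul_nonneg h2.le (Real.rpow_nonneg hQ0.le _)) hψ
  have hcount := h Q ψ ((le_max_left _ _).trans hQ) hψ hψ1
  set T := {pq : (Fin n → ℤ) × ℕ | 1 ≤ pq.2 ∧ (pq.2 : ℝ) ≤ Q ∧
    Metric.infDist ((EuclideanSpace.equiv (Fin n) ℝ).symm (fun i => (pq.1 i : ℝ) / (pq.2 : ℝ)))
      (f '' Metric.ball x₀ (r / 2)) ≤ ψ / (pq.2 : ℝ)} with hT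
  have hpos : 0 < C₁ * ψ ^ (n - d) * Q ^ (d + 1) := by positivity
  have hcard : T.ncard ≠ 0 := by
    intro h0
    rw [h0] at hcount
    simp only [Nat.cast_zero] at hcount
    exact absurd hcount (not_le.2 hpos)
  have hfin : T.Finite := Set.finite_of_ncard_ne_zero hcard
  refine ⟨hfin.toFinset, ?_, ?_⟩
  · intro pq hpq
    rw [Set.Finite.mem_toFinset] at hpq
    refine ⟨hpq.1, hpq.2.1, le_trans ?_ hpq.2.2⟩
    apply Metric.infDist_le_infDist_of_subset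
    · exact Set.image_mono (Metric.ball_subset_ball (half_lt_self hr).le)
    · exact ⟨f x₀, x₀, Metric.mem_ball_self (half_pos hr), rfl⟩
  · rwa [Set.ncard_eq_toFinset_card T hfin] at hcount

end Pool.Agent.Results.MP_a37012_nt.Immersions
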